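import Mathlib
import Pool.Agent.Work.MP_4516ee_al.Defs
import Pool.Agent.Work.MP_4516ee_al.DefsC
import Pool.Agent.Work.MP_4516ee_al.MainC

/-! A countable group of infinite critical regularity, on `[0,1]` and on the circle, that does not
embed in `Diff₊^∞([0,1])` nor in `Diff₊^∞(S¹)`. -/

open Pool.Agent.Work.MP_4516ee_al

/-- There is a countable group `G` which, for `M = [0,1]` and for `M = S¹ = ℝ/ℤ`, embeds in
`Diff₊^r(M)` for every real `r ≥ 1` (so its critical regularity on `M` is infinite) and does not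
embed in `Diff₊^∞(M)`. -/
theorem Pool.Agent.Results.MP_4516ee_al.BothManifolds.result :
    ∃ (G : Type) (_ : Group G), Countable G ∧
      (critRegI G = ⊤ ∧ (∀ r : ℝ, 1 ≤ r → EmbedsI r G) ∧ ¬ EmbedsInfI G) ∧
      (critRegC G = ⊤ ∧ (∀ r : ℝ, 1 ≤ r → EmbedsC r G) ∧ ¬ EmbedsInfC G) :=
  both_result
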